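import Mathlib

open Finset

namespace Pool.Agent.Results.MP_00e3a8_gt.Lin

/-- a diversity on a finite set -/
structure IsDiversity {X : Type} [DecidableEq X] (δ : Finset X → ℝ) : Prop where
  nonneg : ∀ A, 0 ≤ δ A
  zero : ∀ A, δ A = 0 ↔ A.card ≤ 1
  tri : ∀ A B C, C.Nonempty → δ (A ∪ B) ≤ δ (A ∪ C) + δ (B ∪ C)

/-- the l1 diversity of the image of A under φ -/
noncomputable def l1 {X : Type} {k : ℕ} (φ : X → Fin k → ℝ) (A : Finset X) : ℝ :=
  ∑ i, ⨆ a : A, ⨆ b : A, |φ a i - φ b i|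

/-- φ has distortion c from δ to the l1 diversity -/
def Dist {X : Type} {k : ℕ} (δ : Finset X → ℝ) (φ : X → Fin k → ℝ) (c : ℝ) : Prop :=
  ∃ c₁ > 0, ∃ c₂ > 0, c = c₁ * c₂ ∧ ∀ A, 1 / c₁ * δ A ≤ l1 φ A ∧ l1 φ A ≤ c₂ * δ A

noncomputable def D {X Y : Type} [DecidableEq Y] (π : X → Y) (A : Finset X) : ℝ :=
  if A.card ≤ 1 then 0 else max 1 ((A.image π).card - 1)

lemma D_div {X Y : Type} [DecidableEq X] [DecidableEq Y] (π : X → Y) : IsDiversity (D π) := by
  have h0 : ∀ A : Finset X, 0 ≤ D π A := fun A => by unfold D; split_ifs <;> simp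
  have h1 : ∀ A : Finset X, ((A.image π).card : ℝ) - 1 ≤ D π A := fun A => by
    unfold D
    split_ifs with h
    · have : ((A.image π).card : ℝ) ≤ (1 : ℕ) := Nat.cast_le.2 (card_image_le.trans h)
      push_cast at this; linarith
    · exact le_max_right _ _
  have h2 : ∀ A : Finset X, ¬ A.card ≤ 1 → 1 ≤ D π A := fun A h => by
    rw [D, if_neg h]; exact le_max_left _ _
  refine ⟨h0, fun A => ⟨fun h => ?_, fun h => if_pos h⟩, fun A B C hC => ?_⟩
  · by_contra hh; linarith [h2 A hh]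
  · rw [D]
    split_ifs with h
    · exact add_nonneg (h0 _) (h0 _)
    · apply max_le
      · by_cases a : (A ∪ C).card ≤ 1
        · by_cases b : (B ∪ C).card ≤ 1
          · exfalso
            obtain ⟨c, hc⟩ := hC
            apply h
            rw [card_le_one] at a b ⊢
            have : ∀ x ∈ A ∪ B, x = c := fun x hx => by
              rcases mem_union.1 hx with hx | hx
              · exact a x (by simp [hx]) c (by simp [hc])
              · exact b x (by simp [hx]) c (by simp [hc])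
            exact fun x hx y hy => (this x hx).trans (this y hy).symm
          · linarith [h2 _ b, h0 (A ∪ C)]
        · linarith [h2 _ a, h0 (B ∪ C)]
      · have a := card_union_add_card_inter ((A ∪ C).image π) ((B ∪ C).image π)
        have b : ((A ∪ B).image π).card ≤ ((A ∪ C).image π ∪ (B ∪ C).image π).card := by
          apply card_le_card
          rw [← image_union]
          apply image_subset_image
          intro x hx; simp at hx ⊢; tauto
        have c : 0 < ((A ∪ C).image π ∩ (B ∪ C).image π).card := by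
          obtain ⟨c, hc⟩ := hC
          exact card_pos.2 ⟨π c, mem_inter.2 ⟨mem_image_of_mem _ (by simp [hc]),
            mem_image_of_mem _ (by simp [hc])⟩⟩
        have e : (((A ∪ B).image π).card : ℝ) + 1 ≤
            ((A ∪ C).image π).card + ((B ∪ C).image π).card := by exact_mod_cast (by omega)
        linarith [h1 (A ∪ C), h1 (B ∪ C)]

lemma D_pair {X Y : Type} [DecidableEq X] [DecidableEq Y] (π : X → Y) (x y : X) :
    D π {x, y} = if x = y then 0 else 1 := by
  unfold D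
  by_cases h : x = y
  · simp [h]
  · rw [if_neg h, if_neg (by simp [card_pair h]), max_eq_left]
    have : ((({x, y} : Finset X).image π).card : ℝ) ≤ (2 : ℕ) :=
      Nat.cast_le.2 (card_image_le.trans card_le_two)
    push_cast at this; linarith

def col {X : Type} [DecidableEq X] (S : Finset X) (x : X) : Option X := if x ∈ S then none else x

lemma D_in {X : Type} [DecidableEq X] (S : Finset X) : D (col S) S ≤ 1 := by
  unfold D
  split_ifs
  · norm_num
  · have : ((S.image (col S)).card : ℝ) ≤ (1 : ℕ) := Nat.cast_le.2 (card_le_one.2 (by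
      simp only [mem_image]
      rintro _ ⟨a, ha, rfl⟩ _ ⟨b, hb, rfl⟩
      simp [col, ha, hb]))
    push_cast at this
    exact max_le le_rfl (by linarith)

lemma D_out {X : Type} [DecidableEq X] (S T : Finset X) (h : Disjoint S T) (h2 : 2 ≤ T.card) :
    (T.card : ℝ) - 1 ≤ D (col S) T := by
  rw [D, if_neg (by omega), card_image_of_injOn]
  · exact le_max_right _ _
  · intro a ha b hb e
    simpa [col, disjoint_right.1 h ha, disjoint_right.1 h hb] using e

lemma main (m : ℕ) (hm : 2 ≤ m) : ∃ δ δ' : Finset (Fin (m + m)) → ℝ, IsDiversity δ ∧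
    IsDiversity δ' ∧ (∀ x y, δ {x, y} = δ' {x, y}) ∧ ∀ (k : ℕ) (φ : Fin (m + m) → Fin k → ℝ)
      (c c' : ℝ), Dist δ φ c → Dist δ' φ c' → ((m : ℝ) - 1) ^ 2 ≤ c * c' := by
  let S : Finset (Fin (m + m)) := univ.map (Fin.castAddEmb m)
  let T : Finset (Fin (m + m)) := univ.map (Fin.natAddEmb m)
  have hd : Disjoint S T := by
    rw [disjoint_left]
    simp only [S, T, mem_map]
    rintro _ ⟨a, -, rfl⟩ ⟨b, -, e⟩
    have := congrArg Fin.val e
    simp at this; omega
  have hS : S.card = m := by simp [S]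
  have hT : T.card = m := by simp [T]
  refine ⟨D (col S), D (col T), D_div _, D_div _, fun x y => by rw [D_pair, D_pair], ?_⟩
  rintro k φ _ _ ⟨a, ha, b, hb, rfl, h⟩ ⟨a', ha', b', hb', rfl, h'⟩
  have e1 := (h T).1
  have e2 := (h' T).2
  have e3 := (h' S).1
  have e4 := (h S).2
  have f1 := D_out S T hd (by omega)
  have f2 := D_out T S hd.symm (by omega)
  rw [hT] at f1
  rw [hS] at f2
  rw [one_div, inv_mul_le_iff₀ (by assumption)] at e1 e3
  have g1 : (m : ℝ) - 1 ≤ a * b' := by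
    nlinarith [mul_le_mul_of_nonneg_left (D_in T) hb'.le]
  have g2 : (m : ℝ) - 1 ≤ a' * b := by
    nlinarith [mul_le_mul_of_nonneg_left (D_in S) hb.le]
  have : (2 : ℝ) ≤ m := by exact_mod_cast hm
  calc _ ≤ (a * b') * (a' * b) := by
        rw [sq]; exact mul_le_mul g1 g2 (by linarith) (by positivity)
    _ = _ := by ring

theorem result :
    (∀ m, 2 ≤ m → ∃ δ δ' : Finset (Fin (m + m)) → ℝ, IsDiversity δ ∧ IsDiversity δ' ∧
      (∀ x y, δ {x, y} = δ' {x, y}) ∧ ∀ (k : ℕ) (φ : Fin (m + m) → Fin k → ℝ) (c c' : ℝ),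
        Dist δ φ c → Dist δ' φ c' → ((m : ℝ) - 1) ^ 2 ≤ c * c') ∧
    ¬ ∃ (C : ℝ) (k : (n : ℕ) → (Fin n → Fin n → ℝ) → ℕ)
      (φ : (n : ℕ) → (d : Fin n → Fin n → ℝ) → Fin n → Fin (k n d) → ℝ),
      ∀ n, 2 ≤ n → ∀ δ : Finset (Fin n) → ℝ, IsDiversity δ →
        ∃ c ≤ C * √n, Dist δ (φ n fun x y => δ {x, y}) c := by
  refine ⟨main, ?_⟩
  rintro ⟨C, k, φ, h⟩
  obtain ⟨m, hm⟩ := exists_nat_gt (2 * C ^ 2 + 2)
  have h2 : 2 ≤ m := by
    have : ((2 : ℕ) : ℝ) ≤ m := by push_cast; nlinarith [sq_nonneg C]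
    exact_mod_cast this
  obtain ⟨δ, δ', a, b, e, H⟩ := main m h2
  obtain ⟨c, c1, c2⟩ := h _ (by omega) δ a
  obtain ⟨c', c3, c4⟩ := h _ (by omega) δ' b
  rw [← show (fun x y => δ {x, y}) = fun x y => δ' {x, y} from by ext; exact e _ _] at c4
  have h3 := H _ _ _ _ c2 c4
  have p1 : 0 ≤ c' := by obtain ⟨u, hu, v, hv, rfl, -⟩ := c4; positivity
  have p2 : 0 ≤ c := by obtain ⟨u, hu, v, hv, rfl, -⟩ := c2; positivity
  have h4 := mul_le_mul c1 c3 p1 (p2.trans c1)
  have h5 : √((m + m : ℕ) : ℝ) * √((m + m : ℕ) : ℝ) = m + m := by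
    rw [Real.mul_self_sqrt (by positivity)]; push_cast; ring
  have h6 : C * √((m + m : ℕ) : ℝ) * (C * √((m + m : ℕ) : ℝ)) = C ^ 2 * (m + m) := by
    rw [← h5]; ring
  have h7 : (0 : ℝ) < m := by positivity
  nlinarith

end Pool.Agent.Results.MP_00e3a8_gt.Lin
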